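import Mathlib

set_option autoImplicit false

namespace Pool.Agent.H.MP_ba45ff_co

open SimpleGraph Finset

variable {V : Type} {G : SimpleGraph V}

def R (G : SimpleGraph V) (T : Set V) : V → V → Prop :=
  Relation.ReflTransGen (fun x y => G.Adj x y ∧ x ∈ T ∧ y ∈ T)

theorem R.symm {T : Set V} {x y : V} (h : R G T x y) : R G T y x := by
  induction h with
  | refl => exact Relation.ReflTransGen.refl
  | tail _ h ih => exact Relation.ReflTransGen.head ⟨h.1.symm, h.2.2, h.2.1⟩ ih

theorem R.mem {T : Set V} {x y : V} (h : R G T x y) (hx : x ∈ T) : y ∈ T := by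
  induction h with
  | refl => exact hx
  | tail _ h _ => exact h.2.2

theorem R.mono {T T' : Set V} {x y : V} (h : R G T x y) (hs : T ⊆ T') : R G T' x y := by
  induction h with
  | refl => exact Relation.ReflTransGen.refl
  | tail _ h ih => exact Relation.ReflTransGen.tail ih ⟨h.1, hs h.2.1, hs h.2.2⟩

theorem pre_iff (T : Set V) : (G.induce T).Preconnected ↔ ∀ x ∈ T, ∀ y ∈ T, R G T x y := by
  constructor
  · intro h x hx y hy
    obtain ⟨q⟩ := h ⟨x, hx⟩ ⟨y, hy⟩
    have : ∀ (a b : T) (_ : (G.induce T).Walk a b), R G T a.1 b.1 := by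
      intro a b q
      induction q with
      | nil => exact Relation.ReflTransGen.refl
      | @cons a c _ h _ ih => exact Relation.ReflTransGen.head ⟨h, a.2, c.2⟩ ih
    exact this _ _ q
  · intro h ⟨x, hx⟩ ⟨y, hy⟩
    have : ∀ y, R G T x y → ∀ hy : y ∈ T, (G.induce T).Reachable ⟨x, hx⟩ ⟨y, hy⟩ := by
      intro y h
      induction h with
      | refl => intro _; rfl
      | tail _ h ih =>
        intro hy
        exact (ih h.2.1).trans (Adj.reachable (G := G.induce T) h.1)
    exact this y (h x hx y hy) hy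

theorem walk_R {T : Set V} : ∀ {a b : V} (q : G.Walk a b), (∀ s ∈ q.support, s ∈ T) →
    ∀ s ∈ q.support, R G T s b := by
  intro a b q
  induction q with
  | nil =>
    intro _ s hs
    simp only [Walk.support_nil, List.mem_singleton] at hs
    rw [hs]
    exact Relation.ReflTransGen.refl
  | @cons a c b h q ih =>
    intro hT s hs
    have ih' := ih (fun s hs => hT s (by simp [hs]))
    simp only [Walk.support_cons, List.mem_cons] at hs
    rcases hs with rfl | hs
    · exact Relation.ReflTransGen.head ⟨h, hT _ (by simp), hT _ (by simp)⟩ (ih' c (by simp))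
    · exact ih' s hs

theorem path_R {T : Set V} (u : V) : ∀ {a b : V} (q : G.Walk a b), q.IsPath →
    (∀ s ∈ q.support, s ∈ T) → ∀ s ∈ q.support, s ≠ u →
      R G (T \ {u}) s a ∨ R G (T \ {u}) s b := by
  intro a b q
  induction q with
  | nil =>
    intro _ _ s hs _
    simp only [Walk.support_nil, List.mem_singleton] at hs
    rw [hs]
    exact Or.inl Relation.ReflTransGen.refl
  | @cons a c b h q ih =>
    intro hp hT s hs hu
    rw [Walk.cons_isPath_iff] at hp
    have hT' : ∀ s ∈ q.support, s ∈ T := fun s hs => hT s (by simp [hs])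
    simp only [Walk.support_cons, List.mem_cons] at hs
    rcases hs with rfl | hs
    · exact Or.inl Relation.ReflTransGen.refl
    · by_cases e : u = a
      · right
        refine walk_R (T := T \ {u}) q (fun s hs => ⟨hT' s hs, ?_⟩) s hs
        rintro rfl
        exact hp.2 (e ▸ hs)
      · rcases ih hp.1 hT' s hs hu with h' | h'
        · left
          exact Relation.ReflTransGen.tail h'
            ⟨h.symm, h'.mem ⟨hT' s hs, hu⟩, hT a (by simp), fun e' => e e'.symm⟩
        · exact Or.inr h'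

theorem R_walk {T : Set V} {a b : V} (h : R G T a b) (ha : a ∈ T) :
    ∃ q : G.Walk a b, ∀ s ∈ q.support, s ∈ T := by
  induction h with
  | refl => exact ⟨Walk.nil, by simpa using ha⟩
  | tail _ h ih =>
    obtain ⟨q, hq⟩ := ih
    refine ⟨q.concat h.1, fun s hs => ?_⟩
    rw [Walk.support_concat] at hs
    simp only [List.mem_append, List.mem_singleton] at hs
    rcases hs with hs | rfl
    · exact hq s hs
    · exact h.2.2

theorem ear [DecidableEq V] {B : Set V} (h1 : (G.induce B).Connected)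
    (h2 : ∀ v ∈ B, (G.induce (B \ {v})).Preconnected)
    (h3 : ∀ B' : Set V, B ⊆ B' → (G.induce B').Connected →
      (∀ v ∈ B', (G.induce (B' \ {v})).Preconnected) → B' = B)
    {v z w : V} (hv : v ∈ B) (hz : z ∉ B) (hR : R G (Bᶜ ∪ {v}) v z) (hw : w ∈ B)
    (ha : G.Adj z w) : w = v := by
  by_contra hne
  obtain ⟨q0, hq0⟩ := R_walk hR (Or.inr rfl)
  have hp : (q0.bypass.concat ha).IsPath := by
    rw [Walk.concat_isPath_iff]
    refine ⟨q0.bypass_isPath, fun h => ?_⟩
    rcases hq0 w (q0.support_bypass_subset_support h) with h' | h'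
    · exact h' hw
    · exact hne h'
  obtain ⟨q, hq, hzq⟩ : ∃ q : G.Walk v w, q.IsPath ∧ z ∈ q.support :=
    ⟨_, hp, by rw [Walk.support_concat]; simp⟩
  have sub : B ⊆ B ∪ {s | s ∈ q.support} := Set.subset_union_left
  have hB := (pre_iff B).1 h1.preconnected
  have e := h3 (B ∪ {s | s ∈ q.support}) sub ?_ ?_
  · exact hz (e ▸ Or.inr hzq)
  · have : Nonempty (B ∪ {s | s ∈ q.support} : Set V) := ⟨⟨v, Or.inl hv⟩⟩
    refine ⟨(pre_iff _).2 ?_⟩
    have key : ∀ x ∈ B ∪ {s | s ∈ q.support}, R G (B ∪ {s | s ∈ q.support}) x w := by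
      rintro x (hx | hx)
      · exact (hB x hx w hw).mono sub
      · exact walk_R q (fun s hs => Or.inr hs) x hx
    exact fun x hx y hy => (key x hx).trans (key y hy).symm
  · intro u _
    refine (pre_iff _).2 ?_
    have key : ∀ x ∈ (B ∪ {s | s ∈ q.support}) \ {u}, ∃ b ∈ B \ {u},
        R G ((B ∪ {s | s ∈ q.support}) \ {u}) x b := by
      rintro x ⟨hx | hx, hxu⟩
      · exact ⟨x, ⟨hx, hxu⟩, Relation.ReflTransGen.refl⟩
      · rcases path_R (T := B ∪ {s | s ∈ q.support}) u q hq (fun s hs => Or.inr hs) x hx hxu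
          with h | h
        · exact ⟨v, ⟨hv, (h.mem ⟨Or.inr hx, hxu⟩).2⟩, h⟩
        · exact ⟨w, ⟨hw, (h.mem ⟨Or.inr hx, hxu⟩).2⟩, h⟩
    have hBu : ∀ x ∈ B \ {u}, ∀ y ∈ B \ {u}, R G (B \ {u}) x y := by
      by_cases hu : u ∈ B
      · exact (pre_iff _).1 (h2 u hu)
      · rw [Set.sdiff_singleton_eq_self hu]
        exact hB
    intro x hx y hy
    obtain ⟨b, hb, k1⟩ := key x hx
    obtain ⟨c, hc, k2⟩ := key y hy
    exact (k1.trans ((hBu b hb c hc).mono (Set.sdiff_subset_sdiff_left sub))).trans k2.symm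

def dm (G : SimpleGraph V) (D : Finset V) (z : V) : Prop := z ∈ D ∨ ∃ s ∈ D, G.Adj z s

theorem dm.mono {D D' : Finset V} {z : V} (h : dm G D z) (hs : D ⊆ D') : dm G D' z := by
  rcases h with h | ⟨s, h1, h2⟩
  · exact Or.inl (hs h)
  · exact Or.inr ⟨s, hs h1, h2⟩

theorem dm.filter {D : Finset V} {z : V} (h : dm G D z) (P : V → Prop) [DecidablePred P]
    (hz : P z) (hn : ∀ s ∈ D, G.Adj z s → P s) : dm G (D.filter P) z := by
  rcases h with h | ⟨s, h1, h2⟩
  · exact Or.inl (mem_filter.2 ⟨h, hz⟩)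
  · exact Or.inr ⟨s, mem_filter.2 ⟨h1, hn s h1 h2⟩, h2⟩

/-- a cut vertex is not critical -/
theorem cutv [DecidableEq V] {k : ℕ} (low : ∀ D : Finset V, (∀ z, dm G D z) → k ≤ D.card)
    {v : V} (P : V → Prop) [DecidablePred P]
    (hP : ∀ z s, G.Adj z s → z ≠ v → s ≠ v → (P z ↔ P s)) {x y : V} (hx : G.Adj v x)
    (hy : G.Adj v y) (px : P x) (py : ¬ P y) {D E : Finset V} (hD : D.card + 1 = k) (xD : x ∈ D)
    (dD : ∀ z, z ≠ y → dm G D z) (hE : E.card + 1 ≤ k) (vE : v ∉ E)
    (dE : ∀ z, z ≠ v → dm G E z) : False := by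
  have vD : v ∉ D := by
    intro h
    have := low D (fun z => by
      by_cases e : z = y
      · exact Or.inr ⟨v, h, e ▸ hy.symm⟩
      · exact dD z e)
    omega
  have f1 : ∀ (F : Finset V) z, v ∉ F → z ≠ v → P z → dm G F z → dm G (F.filter P) z := by
    intro F z h1 h2 h3 h4
    exact h4.filter P h3 (fun s hs ha => (hP z s ha h2 (by rintro rfl; exact h1 hs)).1 h3)
  have f2 : ∀ (F : Finset V) z, v ∉ F → z ≠ v → ¬ P z → dm G F z →
      dm G (F.filter (fun s => ¬ P s)) z := by
    intro F z h1 h2 h3 h4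
    exact h4.filter _ h3 (fun s hs ha h => h3 ((hP z s ha h2 (by rintro rfl; exact h1 hs)).2 h))
  have a1 := low (D.filter P ∪ E.filter (fun s => ¬ P s)) (fun z => by
    by_cases e : z = v
    · exact Or.inr ⟨x, mem_union_left _ (mem_filter.2 ⟨xD, px⟩), e ▸ hx⟩
    · by_cases h : P z
      · exact (f1 D z vD e h (dD z (by rintro rfl; exact py h))).mono subset_union_left
      · exact (f2 E z vE e h (dE z e)).mono subset_union_right)
  have a2 := low (insert y (E.filter P ∪ D.filter (fun s => ¬ P s))) (fun z => by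
    by_cases e : z = v
    · exact Or.inr ⟨y, mem_insert_self _ _, e ▸ hy⟩
    · by_cases e' : z = y
      · exact Or.inl (e' ▸ mem_insert_self _ _)
      · by_cases h : P z
        · exact (f1 E z vE e h (dE z e)).mono (subset_union_left.trans (subset_insert _ _))
        · exact (f2 D z vD e h (dD z e')).mono (subset_union_right.trans (subset_insert _ _)))
  have b1 := card_union_le (D.filter P) (E.filter (fun s => ¬ P s))
  have b2 := card_union_le (E.filter P) (D.filter (fun s => ¬ P s))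
  have b3 := card_insert_le y (E.filter P ∪ D.filter (fun s => ¬ P s))
  have b4 := card_filter_add_card_filter_not (s := D) P
  have b5 := card_filter_add_card_filter_not (s := E) P
  omega

theorem core [Fintype V] [DecidableEq V] {k : ℕ}
    (low : ∀ D : Finset V, (∀ z, dm G D z) → k ≤ D.card)
    (crit : ∀ u v, u ≠ v → ¬ G.Adj u v → ∃ D : Finset V, D.card + 1 = k ∧
      ((u ∈ D ∧ ∀ z, z ≠ v → dm G D z) ∨ (v ∈ D ∧ ∀ z, z ≠ u → dm G D z)))
    (hG : ∀ x y, R G Set.univ x y) {B : Set V} (hB : ∀ x ∈ B, ∀ y ∈ B, R G B x y)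
    (hear : ∀ v z w, v ∈ B → z ∉ B → R G (Bᶜ ∪ {v}) v z → w ∈ B → G.Adj z w → w = v)
    (hout : ∃ x, x ∉ B)
    (nuc : ∀ x, x ∉ B → ∃ D : Finset V, D.card + 1 ≤ k ∧ x ∉ D ∧ ∀ z, z ≠ x → dm G D z)
    {t : ℕ} (lowB : ∀ D : Finset V, (∀ s ∈ D, s ∈ B) → (∀ z ∈ B, dm G D z) → t ≤ D.card)
    (critB : ∀ u ∈ B, ∀ v ∈ B, u ≠ v → ¬ G.Adj u v → ∃ D : Finset V, (∀ s ∈ D, s ∈ B) ∧
      D.card + 1 = t ∧ ∀ z ∈ B, dm G D z ∨ (z = u ∧ v ∈ D) ∨ (z = v ∧ u ∈ D)) :
    ∀ u ∈ B, ∀ v ∈ B, u ≠ v → G.Adj u v := by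
  classical
  intro u0 hu0 v0 hv0 hne0
  by_contra hn0
  have cross : ∀ (T : Set V) (P : V → Prop) x y, R G T x y → P x → ¬ P y →
      ∃ a b, G.Adj a b ∧ a ∈ T ∧ b ∈ T ∧ P a ∧ ¬ P b := by
    intro T P x y h hx hy
    induction h with
    | refl => exact absurd hx hy
    | @tail b c _ h ih =>
      by_cases e : P b
      · exact ⟨b, c, h.1, h.2.1, h.2.2, e, hy⟩
      · exact ih e
  obtain ⟨C, hC⟩ : ∃ C : V → Prop, ∀ v, C v ↔ (v ∈ B ∧ ∃ x, x ∉ B ∧ G.Adj v x) :=
    ⟨_, fun _ => Iff.rfl⟩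
  obtain ⟨H, hH⟩ : ∃ H : V → V → Prop, ∀ v z, H v z ↔ (z ∉ B ∧ R G (Bᶜ ∪ {v}) v z) :=
    ⟨_, fun _ _ => Iff.rfl⟩
  have Hn : ∀ v z s, v ∈ B → H v z → G.Adj z s → s ≠ v → H v s := by
    intro v z s hv hz ha hs
    obtain ⟨h1, h2⟩ := (hH v z).1 hz
    have : s ∉ B := fun h => hs (hear v z s hv h1 h2 h ha)
    exact (hH v s).2 ⟨this, Relation.ReflTransGen.tail h2 ⟨ha, Or.inl h1, Or.inl this⟩⟩
  have Hx : ∀ v x, x ∉ B → G.Adj v x → H v x := fun v x h1 h2 =>
    (hH v x).2 ⟨h1, Relation.ReflTransGen.single ⟨h2, Or.inr rfl, Or.inl h1⟩⟩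
  have noncrit : ∀ v, C v → ∀ E : Finset V, E.card + 1 ≤ k → v ∉ E →
      (∀ z, z ≠ v → dm G E z) → False := by
    intro v hv E h1 h2 h3
    obtain ⟨hvB, x, hx, hvx⟩ := (hC v).1 hv
    obtain ⟨y, hyB, hvy⟩ : ∃ y ∈ B, G.Adj v y := by
      obtain ⟨w, hw, hwv⟩ : ∃ w ∈ B, w ≠ v := by
        by_cases e : u0 = v
        · exact ⟨v0, hv0, fun e' => hne0 (e.trans e'.symm)⟩
        · exact ⟨u0, hu0, e⟩
      obtain ⟨a, b, k1, -, k2, k3, -⟩ := cross B (fun s => s = v) v w (hB v hvB w hw) rfl hwv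
      exact ⟨b, k2, k3 ▸ k1⟩
    have px := Hx v x hx hvx
    have py : ¬ H v y := fun h => ((hH v y).1 h).1 hyB
    have hP : ∀ z s, G.Adj z s → z ≠ v → s ≠ v → (H v z ↔ H v s) :=
      fun z s ha k1 k2 => ⟨fun h => Hn v z s hvB h ha k2, fun h => Hn v s z hvB h ha.symm k1⟩
    obtain ⟨D, d1, d2⟩ := crit x y (by rintro rfl; exact hx hyB)
      (fun h => py (Hn v x y hvB px h hvy.ne.symm))
    rcases d2 with d2 | d2
    · exact cutv low (H v) hP hvx hvy px py d1 d2.1 d2.2 h1 h2 h3
    · exact cutv low (fun s => ¬ H v s) (fun z s a b c => not_congr (hP z s a b c)) hvy hvx py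
        (not_not.2 px) d1 d2.1 d2.2 h1 h2 h3
  have swap : ∀ v, C v → ∀ D : Finset V, (∀ z, z ∉ B → dm G D z) → v ∉ D →
      ∃ D' : Finset V, D'.card ≤ D.card ∧ v ∈ D' ∧ (∀ s ∈ D, s ∈ B → s ∈ D') ∧
        ∀ z, z ∉ B → dm G D' z := by
    intro v hv D h1 h2
    obtain ⟨hvB, x, hx, hvx⟩ := (hC v).1 hv
    obtain ⟨M, m1, m2, m3⟩ := nuc x hx
    have vM : v ∉ M := by
      intro h
      have := low M (fun z => by
        by_cases e : z = x
        · exact Or.inr ⟨v, h, e ▸ hvx.symm⟩
        · exact m3 z e)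
      omega
    have f1 : ∀ (F : Finset V) z, v ∉ F → H v z → dm G F z → dm G (F.filter (H v)) z := by
      intro F z k1 k3 k4
      exact k4.filter _ k3 (fun s hs ha => Hn v z s hvB k3 ha (by rintro rfl; exact k1 hs))
    have f2 : ∀ (F : Finset V) z, z ≠ v → ¬ H v z → dm G F z →
        dm G (F.filter (fun s => ¬ H v s)) z := by
      intro F z k2 k3 k4
      exact k4.filter _ k3 (fun s _ ha h => k3 (Hn v s z hvB h ha.symm k2))
    have b4 := card_filter_add_card_filter_not (s := D) (H v)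
    have b5 := card_filter_add_card_filter_not (s := M) (H v)
    have lt : (M.filter (H v)).card < (D.filter (H v)).card := by
      by_contra hh
      refine noncrit v hv (D.filter (H v) ∪ M.filter (fun s => ¬ H v s)) ?_ ?_ ?_
      · have := card_union_le (D.filter (H v)) (M.filter (fun s => ¬ H v s))
        omega
      · simp [h2, vM]
      · intro z hz
        by_cases h : H v z
        · exact (f1 D z h2 h (h1 z ((hH v z).1 h).1)).mono subset_union_left
        · exact (f2 M z hz h (m3 z (by rintro rfl; exact h (Hx v z hx hvx)))).mono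
            subset_union_right
    refine ⟨insert v (M.filter (H v) ∪ D.filter (fun s => ¬ H v s)), ?_, mem_insert_self _ _,
      ?_, ?_⟩
    · have := card_union_le (M.filter (H v)) (D.filter (fun s => ¬ H v s))
      have := card_insert_le v (M.filter (H v) ∪ D.filter (fun s => ¬ H v s))
      omega
    · intro s hs hsB
      exact mem_insert_of_mem (mem_union_right _
        (mem_filter.2 ⟨hs, fun h => ((hH v s).1 h).1 hsB⟩))
    · intro z hz
      by_cases e : z = x
      · exact Or.inr ⟨v, mem_insert_self _ _, e ▸ hvx.symm⟩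
      · by_cases h : H v z
        · exact (f1 M z vM h (m3 z e)).mono (subset_union_left.trans (subset_insert _ _))
        · exact (f2 D z (by rintro rfl; exact hz hvB) h (h1 z hz)).mono
            (subset_union_right.trans (subset_insert _ _))
  have norm : ∀ (L : Finset V), (∀ v ∈ L, C v) → ∀ D : Finset V, (∀ z, z ∉ B → dm G D z) →
      ∃ D' : Finset V, D'.card ≤ D.card ∧ L ⊆ D' ∧ ∀ z, z ∉ B → dm G D' z := by
    intro L
    induction L using Finset.induction_on with
    | empty => exact fun _ D h => ⟨D, le_refl _, empty_subset _, h⟩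
    | insert v L _ ih =>
      intro hL D h
      obtain ⟨D1, a1, a2, a3⟩ := ih (fun w hw => hL w (mem_insert_of_mem hw)) D h
      by_cases e : v ∈ D1
      · exact ⟨D1, a1, insert_subset e a2, a3⟩
      · obtain ⟨D2, b1, b2, b3, b4⟩ := swap v (hL v (mem_insert_self _ _)) D1 a3 e
        exact ⟨D2, b1.trans a1, insert_subset b2 (fun w hw => b3 w (a2 hw)
          ((hC w).1 (hL w (mem_insert_of_mem hw))).1), b4⟩
  obtain ⟨Q, hQ⟩ : ∃ Q : V → Prop, ∀ z, Q z ↔ (C z ∨ ∃ c, C c ∧ G.Adj z c) := ⟨_, fun _ => Iff.rfl⟩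
  obtain ⟨Y, hY, hmin⟩ := exists_min_image
    ((univ : Finset (Finset V)).filter (fun Y => ∀ z ∈ B, ¬ Q z → dm G Y z)) card
    ⟨univ, by simp [dm]⟩
  simp only [mem_filter, mem_univ, true_and] at hY hmin
  have L : ∀ D : Finset V, (∀ z, z ∉ B → dm G D z) → k ≤ D.card + Y.card := by
    intro D h
    obtain ⟨D', a1, a2, a3⟩ := norm (univ.filter C) (by simp) D h
    have := low (D' ∪ Y) (fun z => by
      by_cases e : z ∈ B
      · by_cases q : Q z
        · rcases (hQ z).1 q with c | ⟨c, c1, c2⟩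
          · exact Or.inl (mem_union_left _ (a2 (by simp [c])))
          · exact Or.inr ⟨c, mem_union_left _ (a2 (by simp [c1])), c2⟩
        · exact (hY z e q).mono subset_union_right
      · exact (a3 z e).mono subset_union_left)
    have := card_union_le D' Y
    omega
  obtain ⟨I, hI⟩ : ∃ I : V → Prop, ∀ z, I z ↔ (z ∈ B ∧ ¬ C z) := ⟨_, fun _ => Iff.rfl⟩
  have g1 : ∀ (D : Finset V) z, z ∉ B → dm G D z → dm G (D.filter (fun s => ¬ I s)) z := by
    intro D z h1 h2
    refine h2.filter _ (fun h => h1 ((hI z).1 h).1) (fun s _ ha h => ?_)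
    exact ((hI s).1 h).2 ((hC s).2 ⟨((hI s).1 h).1, z, h1, ha.symm⟩)
  have g2 : ∀ (D : Finset V) z, z ∈ B → ¬ Q z → dm G D z → dm G (D.filter I) z := by
    intro D z h1 h2 h3
    have nc : ¬ C z := fun h => h2 ((hQ z).2 (Or.inl h))
    refine h3.filter _ ((hI z).2 ⟨h1, nc⟩) (fun s _ ha => (hI s).2 ⟨?_, fun h => ?_⟩)
    · by_contra h
      exact nc ((hC z).2 ⟨h1, s, h, ha⟩)
    · exact h2 ((hQ z).2 (Or.inr ⟨s, h, ha⟩))
  have big : ∀ (D : Finset V) a, a ∈ B → Q a → (∀ z, z ≠ a → dm G D z) → k ≤ D.card := by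
    intro D a h1 h2 h3
    have c1 := L _ (fun z hz => g1 D z hz (h3 z (by rintro rfl; exact hz h1)))
    have c2 := hmin _ (fun z hz q => g2 D z hz q (h3 z (by rintro rfl; exact q h2)))
    have c3 := card_filter_add_card_filter_not (s := D) I
    omega
  have clq : ∀ a b, a ∈ B → b ∈ B → Q a → Q b → a ≠ b → G.Adj a b := by
    intro a b h1 h2 h3 h4 h5
    by_contra hn
    obtain ⟨D, d1, d2 | d2⟩ := crit a b h5 hn
    · have := big D b h2 h4 d2.2
      omega
    · have := big D a h1 h3 d2.2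
      omega
  obtain ⟨r0, hr0, qr0⟩ : ∃ r ∈ B, ¬ Q r := by
    by_contra h
    push Not at h
    exact hn0 (clq u0 v0 hu0 hv0 (h _ hu0) (h _ hv0) hne0)
  obtain ⟨x0, hx0⟩ := hout
  obtain ⟨v, x, hvx, -, -, hvB, hx⟩ := cross Set.univ (fun s => s ∈ B) u0 x0 (hG _ _) hu0 hx0
  have cv : C v := (hC v).2 ⟨hvB, x, hx, hvx⟩
  obtain ⟨a, r, har, haB, hrB, qa, qr⟩ := cross B Q v r0 (hB v hvB r0 hr0)
    ((hQ v).2 (Or.inl cv)) qr0
  have nca : ¬ C a := fun h => qr ((hQ r).2 (Or.inr ⟨a, h, har.symm⟩))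
  have ht : t ≤ Y.card := by
    obtain ⟨D, d1, d2 | d2⟩ := crit x a (by rintro rfl; exact hx haB)
      (fun h => nca ((hC a).2 ⟨haB, x, hx, h.symm⟩))
    · have := big D a haB qa d2.2
      omega
    · have c1 := L (insert v (D.filter (fun s => ¬ I s))) (fun z hz => by
        by_cases e : z = x
        · exact Or.inr ⟨v, mem_insert_self _ _, e ▸ hvx.symm⟩
        · exact (g1 D z hz (d2.2 z e)).mono (subset_insert _ _))
      have aI : a ∈ D.filter I := mem_filter.2 ⟨d2.1, (hI a).2 ⟨haB, nca⟩⟩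
      have c2 := lowB (D.filter I) (fun s hs => ((hI s).1 (mem_filter.1 hs).2).1) (fun z hz => by
        by_cases q : Q z
        · by_cases e : z = a
          · exact Or.inl (e ▸ aI)
          · exact Or.inr ⟨a, aI, clq z a hz haB q qa e⟩
        · exact g2 D z hz q (d2.2 z (by rintro rfl; exact hx hz)))
      have c3 := card_filter_add_card_filter_not (s := D) I
      have c4 := card_insert_le v (D.filter (fun s => ¬ I s))
      omega
  have vr : v ≠ r := by
    rintro rfl
    exact qr ((hQ v).2 (Or.inl cv))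
  obtain ⟨D, -, d1, d2⟩ := critB v hvB r hrB vr (fun h => qr ((hQ r).2 (Or.inr ⟨v, cv, h.symm⟩)))
  by_cases e : v ∈ D
  · have c1 := hmin (insert r (D.erase v)) (fun z hz q => by
      have zv : z ≠ v := by
        rintro rfl
        exact q ((hQ z).2 (Or.inl cv))
      rcases d2 z hz with (h | ⟨s, h1, h2⟩) | h | h
      · exact Or.inl (mem_insert_of_mem (mem_erase.2 ⟨zv, h⟩))
      · refine Or.inr ⟨s, mem_insert_of_mem (mem_erase.2 ⟨?_, h1⟩), h2⟩
        rintro rfl
        exact q ((hQ z).2 (Or.inr ⟨s, cv, h2⟩))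
      · exact absurd h.1 zv
      · exact Or.inl (h.1 ▸ mem_insert_self _ _))
    have c2 := card_insert_le r (D.erase v)
    have c3 := card_erase_add_one e
    omega
  · have c1 := hmin D (fun z hz q => by
      rcases d2 z hz with h | h | h
      · exact h
      · exact absurd ((hQ z).2 (Or.inl (h.1 ▸ cv))) q
      · exact absurd h.2 e)
    omega

theorem main (V : Type) [Fintype V] [DecidableEq V] (G : SimpleGraph V)
    (γ : SimpleGraph V → Set V → ℕ)
    (hγ : ∀ (H : SimpleGraph V) (S : Set V),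
        γ H S = sInf {n : ℕ | ∃ D : Finset V, (↑D : Set V) ⊆ S ∧ D.card = n ∧
          ∀ v ∈ S, v ∈ D ∨ ∃ u ∈ D, H.Adj v u})
    (hc : G.Connected)
    (hcr : ∀ u v : V, u ≠ v → ¬ G.Adj u v →
        γ (G ⊔ SimpleGraph.edge u v) Set.univ = γ G Set.univ - 1)
    (hcut : ∃ c : V, ¬ (G.induce ({c}ᶜ : Set V)).Preconnected) (B : Set V)
    (hB : (G.induce B).Connected ∧
          (∀ v ∈ B, (G.induce (B \ {v})).Preconnected) ∧
          ∀ B' : Set V, B ⊆ B' → (G.induce B').Connected →
            (∀ v ∈ B', (G.induce (B' \ {v})).Preconnected) → B' = B)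
    (hnuc : {v : V | γ G ({v}ᶜ : Set V) = γ G Set.univ} ⊆ B)
    (hcB : ∀ u ∈ B, ∀ v ∈ B, u ≠ v → ¬ G.Adj u v →
          γ (G ⊔ SimpleGraph.edge u v) B = γ G B - 1) :
    ∀ u ∈ B, ∀ v ∈ B, u ≠ v → G.Adj u v := by
  classical
  have lo : ∀ (H : SimpleGraph V) (S : Set V) (D : Finset V), (∀ s ∈ D, s ∈ S) →
      (∀ z ∈ S, dm H D z) → γ H S ≤ D.card := by
    intro H S D h1 h2
    rw [hγ]
    exact Nat.sInf_le ⟨D, h1, rfl, h2⟩
  have ex : ∀ (H : SimpleGraph V) (S : Set V), ∃ D : Finset V, (∀ s ∈ D, s ∈ S) ∧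
      D.card = γ H S ∧ ∀ z ∈ S, dm H D z := by
    intro H S
    rw [hγ]
    exact Nat.sInf_mem (s := {n : ℕ | ∃ D : Finset V, (↑D : Set V) ⊆ S ∧ D.card = n ∧
          ∀ v ∈ S, v ∈ D ∨ ∃ u ∈ D, H.Adj v u})
      ⟨_, univ.filter (fun s => s ∈ S), by simp, rfl,
        fun v hv => Or.inl (by simp [hv])⟩
  have pos : ∀ (S : Set V) z, z ∈ S → 0 < γ G S := by
    intro S z hz
    obtain ⟨D, -, h1, h2⟩ := ex G S
    rw [← h1]
    rcases h2 z hz with h | ⟨s, h, -⟩
    · exact card_pos.2 ⟨_, h⟩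
    · exact card_pos.2 ⟨_, h⟩
  have tr : ∀ u v (D : Finset V) z, dm (G ⊔ edge u v) D z →
      dm G D z ∨ (z = u ∧ v ∈ D) ∨ (z = v ∧ u ∈ D) := by
    rintro u v D z (h | ⟨s, h1, h2⟩)
    · exact Or.inl (Or.inl h)
    · rw [sup_adj, edge_adj] at h2
      rcases h2 with h2 | ⟨⟨rfl, rfl⟩ | ⟨rfl, rfl⟩, -⟩
      · exact Or.inl (Or.inr ⟨s, h1, h2⟩)
      · exact Or.inr (Or.inl ⟨rfl, h1⟩)
      · exact Or.inr (Or.inr ⟨rfl, h1⟩)
  have low : ∀ D : Finset V, (∀ z, dm G D z) → γ G Set.univ ≤ D.card :=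
    fun D h => lo G _ D (fun _ _ => trivial) (fun z _ => h z)
  have crit : ∀ u v, u ≠ v → ¬ G.Adj u v → ∃ D : Finset V, D.card + 1 = γ G Set.univ ∧
      ((u ∈ D ∧ ∀ z, z ≠ v → dm G D z) ∨ (v ∈ D ∧ ∀ z, z ≠ u → dm G D z)) := by
    intro u v h1 h2
    obtain ⟨D, -, d1, d2⟩ := ex (G ⊔ edge u v) Set.univ
    have := hcr u v h1 h2
    have := pos Set.univ u trivial
    refine ⟨D, by omega, ?_⟩
    by_cases hu : dm G D u
    · left
      have hv : ¬ dm G D v := by
        intro hv
        have := low D (fun z => by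
          rcases tr u v D z (d2 z trivial) with h | h | h
          · exact h
          · exact h.1 ▸ hu
          · exact h.1 ▸ hv)
        omega
      constructor
      · rcases tr u v D v (d2 v trivial) with h | h | h
        · exact absurd h hv
        · exact absurd h.1.symm h1
        · exact h.2
      · intro z hz
        rcases tr u v D z (d2 z trivial) with h | h | h
        · exact h
        · exact h.1 ▸ hu
        · exact absurd h.1 hz
    · right
      have hv : v ∈ D := by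
        rcases tr u v D u (d2 u trivial) with h | h | h
        · exact absurd h hu
        · exact h.2
        · exact absurd h.1 h1
      refine ⟨hv, fun z hz => ?_⟩
      rcases tr u v D z (d2 z trivial) with h | h | h
      · exact h
      · exact absurd h.1 hz
      · exact Or.inl (h.1 ▸ hv)
  have hG : ∀ x y, R G Set.univ x y := by
    intro x y
    obtain ⟨q⟩ := hc.preconnected x y
    exact walk_R q (fun _ _ => trivial) x (by simp)
  refine core low crit hG ((pre_iff B).1 hB.1.preconnected)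
    (fun v z w h1 h2 h3 h4 h5 => ear hB.1 hB.2.1 hB.2.2 h1 h2 h3 h4 h5) ?_ ?_ (t := γ G B)
    (lo G B) ?_
  · by_contra h
    push Not at h
    obtain ⟨c, hc'⟩ := hcut
    have e : B \ {c} = {c}ᶜ := by
      ext s
      simp [h s]
    exact hc' (e ▸ hB.2.1 c (h c))
  · intro x hx
    have hne : γ G ({x}ᶜ : Set V) ≠ γ G Set.univ := fun h => hx (hnuc h)
    have hle : γ G ({x}ᶜ : Set V) ≤ γ G Set.univ := by
      by_cases hcl : ∀ y z, G.Adj x y → G.Adj x z → y ≠ z → G.Adj y z
      · obtain ⟨D, -, d1, d2⟩ := ex G Set.univ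
        obtain ⟨⟨b, hb⟩⟩ := hB.1.nonempty
        obtain ⟨y, hy⟩ : ∃ y, G.Adj x y := by
          rcases (hG x b).cases_head with h | ⟨y, h, -⟩
          · exact absurd (h ▸ hb) hx
          · exact ⟨y, h.1⟩
        by_cases e : x ∈ D
        · have c1 := lo G {x}ᶜ (insert y (D.erase x)) (by
            intro s hs
            rcases mem_insert.1 hs with rfl | h
            · exact hy.ne.symm
            · exact (mem_erase.1 h).1) (by
            intro z hz
            rcases d2 z trivial with h | ⟨s, h1, h2⟩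
            · exact Or.inl (mem_insert_of_mem (mem_erase.2 ⟨hz, h⟩))
            · by_cases e1 : s = x
              · by_cases e2 : z = y
                · exact Or.inl (e2 ▸ mem_insert_self _ _)
                · exact Or.inr ⟨y, mem_insert_self _ _, hcl z y (e1 ▸ h2.symm) hy e2⟩
              · exact Or.inr ⟨s, mem_insert_of_mem (mem_erase.2 ⟨e1, h1⟩), h2⟩)
          have c2 := card_insert_le y (D.erase x)
          have c3 := card_erase_add_one e
          omega
        · have c1 := lo G {x}ᶜ D (fun s hs => by rintro rfl; exact e hs) (fun z _ => d2 z trivial)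
          omega
      · push Not at hcl
        obtain ⟨y, z, h1, h2, h3, h4⟩ := hcl
        have key : ∀ (y : V) (D : Finset V), G.Adj x y → D.card + 1 = γ G Set.univ →
            (∀ w, w ≠ y → dm G D w) → γ G ({x}ᶜ : Set V) ≤ γ G Set.univ := by
          intro y D k1 k2 k3
          have e : x ∉ D := by
            intro h
            have := low D (fun w => by
              by_cases e : w = y
              · exact Or.inr ⟨x, h, e ▸ k1.symm⟩
              · exact k3 w e)
            omega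
          have c1 := lo G {x}ᶜ (insert y D) (by
            intro s hs
            rcases mem_insert.1 hs with rfl | h
            · exact k1.ne.symm
            · rintro rfl
              exact e h) (by
            intro w _
            by_cases e' : w = y
            · exact Or.inl (e' ▸ mem_insert_self _ _)
            · exact (k3 w e').mono (subset_insert _ _))
          have c2 := card_insert_le y D
          omega
        obtain ⟨D, d1, d2 | d2⟩ := crit y z h3 h4
        · exact key z D h2 d1 d2.2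
        · exact key y D h1 d1 d2.2
    obtain ⟨D, d0, d1, d2⟩ := ex G {x}ᶜ
    exact ⟨D, by omega, fun h => d0 x h rfl, fun z hz => d2 z hz⟩
  · intro u hu v hv h1 h2
    obtain ⟨D, d0, d1, d2⟩ := ex (G ⊔ edge u v) B
    have := hcB u hu v hv h1 h2
    have := pos B u hu
    exact ⟨D, d0, by omega, fun z hz => tr u v D z (d2 z hz)⟩

end Pool.Agent.H.MP_ba45ff_co
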